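import Pool.Agent.H943R6.MG.Final
import Pool.Agent.W900.CH.NELev

/-!
# The partial minimum circuit size problem relative to an oracle
-/

set_option autoImplicit false

namespace Pool.Agent.TH707.PM

open Pool.Agent.NPC Pool.Agent.H620R2.Gauge Pool.Agent.H622R2 Pool.Agent.H622R2.Ckt
open Pool.Agent.H943R6.MC

/-- A partial truth table, a list of values `some b` and stars `none`, written as a bit string:
`00` for a star, `1b` for the value `b`. -/
def code (τ : List (Option Bool)) : List Bool :=
  τ.flatMap fun o => match o with
    | none => [false, false]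
    | some b => [true, b]

/-- The truth table `T` agrees with the partial truth table `τ`: they have the same length, and
every value in `τ` is the value in `T` at the same place. -/
def Agrees (τ : List (Option Bool)) (T : List Bool) : Prop :=
  List.Forall₂ (fun o b => o = none ∨ o = some b) τ T

/-- The partial minimum circuit size problem relative to `A`: the pairs `⟨τ, 1 ^ s⟩`, where `τ` is
a partial truth table that agrees with the truth table of a circuit of size at most `s` with gates
for the oracle `A`. -/
def PMCSP (A : Oracle) : Set (List Bool) :=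
  {y | ∃ (n s : ℕ) (C : Circuit) (τ : List (Option Bool)), C.size ≤ s ∧
    Agrees τ (table n (C.eval A)) ∧ y = pairBits (code τ) (List.replicate s true)}

@[simp] theorem code_nil : code [] = [] := rfl

@[simp] theorem code_none (τ : List (Option Bool)) : code (none :: τ) = false :: false :: code τ :=
  rfl

@[simp] theorem code_some (b : Bool) (τ : List (Option Bool)) :
    code (some b :: τ) = true :: b :: code τ := rfl

theorem code_inj : ∀ {τ τ' : List (Option Bool)}, code τ = code τ' → τ = τ' := by
  intro τ
  induction τ with
  | nil =>
    intro τ' h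
    rcases τ' with _ | ⟨_ | b, τ'⟩
    · rfl
    · simp at h
    · simp at h
  | cons o τ ih =>
    intro τ' h
    rcases o with _ | b <;> rcases τ' with _ | ⟨_ | b', τ'⟩
    · simp at h
    · simp only [code_none, List.cons.injEq, true_and] at h
      rw [ih h]
    · simp at h
    · simp at h
    · simp at h
    · simp only [code_some, List.cons.injEq, true_and] at h
      rw [h.1, ih h.2]

/-- one step of the comparison -/
def step (s : Bool × List Bool) (b : Bool) : Bool × List Bool :=
  if s.1 = true ∧ ((s.2.head? = some false ∧ s.2.tail.head? = some false) ∨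
      (s.2.head? = some true ∧ s.2.tail.head? = some b)) then (true, s.2.tail.tail)
  else (false, [])

/-- the string `c` is the code of a partial table which agrees with `T` -/
def agr (p : List Bool × List Bool) : Bool :=
  decide (p.2.foldl step (true, p.1) = (true, []))

theorem step_false (T : List Bool) : T.foldl step (false, []) = (false, []) := by
  induction T with
  | nil => rfl
  | cons b T ih =>
    rw [List.foldl_cons]
    have h : step (false, []) b = (false, []) := by simp [step]
    rw [h]
    exact ih

theorem fold_iff (T : List Bool) : ∀ c : List Bool,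
    T.foldl step (true, c) = (true, []) ↔ ∃ τ, c = code τ ∧ Agrees τ T := by
  induction T with
  | nil =>
    intro c
    rw [List.foldl_nil, Prod.mk.injEq]
    constructor
    · rintro ⟨-, rfl⟩
      exact ⟨[], rfl, List.Forall₂.nil⟩
    · rintro ⟨τ, rfl, h⟩
      cases h
      exact ⟨rfl, rfl⟩
  | cons b T ih =>
    intro c
    rw [List.foldl_cons]
    constructor
    · intro h
      by_cases h1 : ((c.head? = some false ∧ c.tail.head? = some false) ∨
          (c.head? = some true ∧ c.tail.head? = some b))
      · have h2 : step (true, c) b = (true, c.tail.tail) := by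
          unfold step
          rw [if_pos ⟨rfl, h1⟩]
        rw [h2] at h
        obtain ⟨τ, h3, h4⟩ := (ih _).1 h
        rcases h1 with ⟨h5, h6⟩ | ⟨h5, h6⟩
        · refine ⟨none :: τ, ?_, List.Forall₂.cons (Or.inl rfl) h4⟩
          rw [code_none, ← h3]
          rcases c with _ | ⟨x, _ | ⟨y, c⟩⟩
          · simp at h5
          · simp at h6
          · simp only [List.head?_cons, Option.some.injEq, List.tail_cons] at h5 h6 ⊢
            rw [h5, h6]
        · refine ⟨some b :: τ, ?_, List.Forall₂.cons (Or.inr rfl) h4⟩
          rw [code_some, ← h3]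
          rcases c with _ | ⟨x, _ | ⟨y, c⟩⟩
          · simp at h5
          · simp at h6
          · simp only [List.head?_cons, Option.some.injEq, List.tail_cons] at h5 h6 ⊢
            rw [h5, h6]
      · have h2 : step (true, c) b = (false, []) := by
          unfold step
          rw [if_neg fun h3 => h1 h3.2]
        rw [h2, step_false] at h
        simp at h
    · rintro ⟨τ, rfl, h⟩
      cases h with
      | cons h1 h2 =>
        rename_i o τ'
        have h3 : step (true, code (o :: τ')) b = (true, code τ') := by
          rcases h1 with h1 | h1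
          · subst h1
            simp [step]
          · subst h1
            simp [step]
        rw [h3]
        exact (ih _).2 ⟨τ', rfl, h2⟩

theorem agr_iff (T c : List Bool) :
    agr (c, T) = true ↔ ∃ τ, c = code τ ∧ Agrees τ T := by
  unfold agr
  rw [decide_eq_true_eq]
  exact fold_iff T c

theorem fold_bound (T : List Bool) : ∀ s : Bool × List Bool,
    (T.foldl step s).2.length ≤ s.2.length := by
  induction T with
  | nil => intro s; exact le_rfl
  | cons b T ih =>
    intro s
    rw [List.foldl_cons]
    refine (ih _).trans ?_
    unfold step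
    split_ifs
    · simp only [List.length_tail]
      omega
    · simp

theorem poly_agr : Poly agr := by
  have h1 : Poly (fun p : List Bool × List Bool => p.2.foldl step (true, p.1)) := by
    refine Poly.foldl (l := fun p : List Bool × List Bool => p.2)
      (s := fun p => (true, p.1)) (F := fun _ => step) (Poly.snd Poly.id)
      (Poly.pair (NPC.Poly.const _) (Poly.fst Poly.id)) ?_
      (Polynomial.C 4 * Polynomial.X + Polynomial.C 5) ?_
    · have hs : Poly (fun p : (List Bool × List Bool) × (Bool × List Bool) × Bool => p.2.1.2) :=
        Poly.snd (Poly.fst (Poly.snd Poly.id))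
      have hb : Poly (fun p : (List Bool × List Bool) × (Bool × List Bool) × Bool => p.2.1.1) :=
        Poly.fst (Poly.fst (Poly.snd Poly.id))
      have hc : Poly (fun p : (List Bool × List Bool) × (Bool × List Bool) × Bool => p.2.2) :=
        Poly.snd (Poly.snd Poly.id)
      refine Poly.ite ?_ (Poly.pair (NPC.Poly.const _) (Poly.tail (Poly.tail hs)))
        (NPC.Poly.const _)
      refine Poly.decide_and (Poly.decide_eq hb (NPC.Poly.const _)) ?_
      refine Poly.decide_or (Poly.decide_and (Poly.decide_eq (Poly.head? hs) (NPC.Poly.const _))
        (Poly.decide_eq (Poly.head? (Poly.tail hs)) (NPC.Poly.const _))) ?_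
      exact Poly.decide_and (Poly.decide_eq (Poly.head? hs) (NPC.Poly.const _))
        (Poly.decide_eq (Poly.head? (Poly.tail hs)) (Poly.some hc))
    · intro p k _
      have h2 := fold_bound (p.2.take k) (true, p.1)
      have h3 := sz_listBool_le ((p.2.take k).foldl step (true, p.1)).2
      have h4 := sz_bool_le ((p.2.take k).foldl step (true, p.1)).1
      have h5 := sz_listBool_ge p.1
      have h6 : sz ((p.2.take k).foldl step (true, p.1)) =
          sz ((p.2.take k).foldl step (true, p.1)).1 +
            sz ((p.2.take k).foldl step (true, p.1)).2 + 1 := sz_pair _ _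
      have h7 : sz p = sz p.1 + sz p.2 + 1 := sz_pair _ _
      simp only [Polynomial.eval_add, Polynomial.eval_mul, Polynomial.eval_C,
        Polynomial.eval_X] at h2 ⊢
      have h8 : ((p.2.take k).foldl step (true, p.1)).2.length ≤ p.1.length := h2
      omega
  exact Poly.decide_eq h1 (NPC.Poly.const _)

theorem length_code (τ : List (Option Bool)) : (code τ).length = 2 * τ.length := by
  induction τ with
  | nil => rfl
  | cons o τ ih => rcases o with _ | b <;> simp [ih] <;> ring

/-- The problem in terms of the total problem. -/
theorem mem_iff (A : Oracle) (y : List Bool) : y ∈ PMCSP A ↔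
    ∃ (T u : List Bool) (τ : List (Option Bool)), y = pairBits (code τ) u ∧ Agrees τ T ∧
      pairBits T u ∈ MCSP A := by
  constructor
  · rintro ⟨n, s, C, τ, h1, h2, rfl⟩
    exact ⟨_, _, τ, rfl, h2, n, s, C, trivial, h1, rfl⟩
  · rintro ⟨T, u, τ, rfl, h2, n, s, C, -, h1, h3⟩
    obtain ⟨rfl, rfl⟩ := HRD.pairBits_inj h3
    exact ⟨n, s, C, τ, h1, h2, rfl⟩

/-- The partial problem is in `NP`. -/
theorem isNP_pmcsp (A : Oracle) : IsNP A (PMCSP A) := by
  obtain ⟨V, p, hV, hL⟩ := isNP_mcsp A
  have h1 : Poly (fun z : List Bool => (unpair z).1) := Poly.fst poly_unpair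
  have h2 : Poly (fun z : List Bool => (unpair z).2) := Poly.snd poly_unpair
  -- `z = ⟨⟨T, w⟩, y⟩`, `y = ⟨c, u⟩`
  have hT : Poly (fun z : List Bool => (unpair (unpair z).1).1) := h1.comp h1
  have hw : Poly (fun z : List Bool => (unpair (unpair z).1).2) := h2.comp h1
  have hc : Poly (fun z : List Bool => (unpair (unpair z).2).1) := h1.comp h2
  have hu : Poly (fun z : List Bool => (unpair (unpair z).2).2) := h2.comp h2
  have hTu : Poly (fun z : List Bool =>
      pairBits (unpair (unpair z).1).1 (unpair (unpair z).2).2) := poly_pairBits hT hu
  have h4 : UPoly (fun z : List Bool =>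
      p.eval (pairBits (unpair (unpair z).1).1 (unpair (unpair z).2).2).length) :=
    UPoly.eval (UPoly.length hTu) p
  have h5 : Poly (fun z : List Bool => ((unpair (unpair z).1).2.zip (List.replicate
      (p.eval (pairBits (unpair (unpair z).1).1 (unpair (unpair z).2).2).length) ())).map
        (fun u => u.1)) :=
    NPC.Poly.map (F := fun _ u => u.1) (Poly.zip hw h4) (Poly.fst (Poly.snd Poly.id))
  have h6 : Poly (fun z : List Bool =>
      pairBits ((unpair (unpair z).1).2.take
        (p.eval (pairBits (unpair (unpair z).1).1 (unpair (unpair z).2).2).length))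
        (pairBits (unpair (unpair z).1).1 (unpair (unpair z).2).2)) :=
    (poly_pairBits h5 hTu).congr fun z => by rw [U2.map_fst_zip_replicate]
  have h7 : IsFP A (fun z : List Bool => V (pairBits ((unpair (unpair z).1).2.take
        (p.eval (pairBits (unpair (unpair z).1).1 (unpair (unpair z).2).2).length))
        (pairBits (unpair (unpair z).1).1 (unpair (unpair z).2).2))) :=
    hV.comp (IsFP.of_poly h6)
  have h8 : Poly (fun z : List Bool => agr ((unpair (unpair z).2).1, (unpair (unpair z).1).1) &&
      decide (pairBits (unpair (unpair z).2).1 (unpair (unpair z).2).2 = (unpair z).2)) :=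
    Poly.and (poly_agr.comp (Poly.pair hc hT)) (Poly.decide_eq (poly_pairBits hc hu) h2)
  refine ⟨fun z => if (agr ((unpair (unpair z).2).1, (unpair (unpair z).1).1) &&
      decide (pairBits (unpair (unpair z).2).1 (unpair (unpair z).2).2 = (unpair z).2)) = true then
      V (pairBits ((unpair (unpair z).1).2.take
        (p.eval (pairBits (unpair (unpair z).1).1 (unpair (unpair z).2).2).length))
        (pairBits (unpair (unpair z).1).1 (unpair (unpair z).2).2)) else [],
    Polynomial.C 2 * Polynomial.X + Polynomial.C 1 + p, ?_, fun y => ?_⟩
  · have h9 : Poly (fun z : List Bool => if (agr ((unpair (unpair (unpair z).1).2).1,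
        (unpair (unpair (unpair z).1).1).1) && decide (pairBits (unpair (unpair (unpair z).1).2).1
        (unpair (unpair (unpair z).1).2).2 = (unpair (unpair z).1).2)) = true then
        (unpair z).2 else []) :=
      Poly.ite (Poly.decide_bool (h8.comp h1)) h2 (NPC.Poly.const _)
    have h10 := (IsFP.of_poly (A := A) h9).comp ((IsFP.of_poly (A := A) (Poly.id (α := List Bool))).pair h7)
    refine (congrArg (IsFP A) (funext fun z => ?_)).mp h10
    simp only [unpair_pairBits]
  · rw [mem_iff]
    constructor
    · rintro ⟨T, u, τ, rfl, h9, h10⟩
      obtain ⟨w, h11, h12⟩ := (hL _).1 h10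
      have h13 : T.length = τ.length := h9.length_eq.symm
      refine ⟨pairBits T w, ?_, ?_⟩
      · rw [A2.length_pairBits]
        simp only [Polynomial.eval_add, Polynomial.eval_mul, Polynomial.eval_C,
          Polynomial.eval_X]
        have h14 : (pairBits T u).length ≤ (pairBits (code τ) u).length := by
          rw [A2.length_pairBits, A2.length_pairBits, length_code]
          omega
        have h15 := h11.trans (eval_mono p h14)
        have h16 : T.length ≤ (pairBits (code τ) u).length := by
          rw [A2.length_pairBits, length_code]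
          omega
        omega
      · simp only [unpair_pairBits]
        rw [if_pos]
        · rwa [List.take_of_length_le h11]
        · rw [Bool.and_eq_true]
          exact ⟨(agr_iff T _).2 ⟨τ, rfl, h9⟩, by simp⟩
    · rintro ⟨w, -, h9⟩
      simp only [unpair_pairBits] at h9
      split_ifs at h9 with h10
      · rw [Bool.and_eq_true, decide_eq_true_eq] at h10
        obtain ⟨τ, h11, h12⟩ := (agr_iff _ _).1 h10.1
        refine ⟨(unpair w).1, (unpair y).2, τ, ?_, h12, (hL _).2 ⟨_, List.length_take_le _ _, h9⟩⟩
        rw [← h11]
        exact h10.2.symm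

/-- the total table as a partial table -/
def emb (T : List Bool) : List Bool :=
  pairBits (T.flatMap fun b => [true, b]) (List.replicate (2 * Nat.sqrt T.length) true)

theorem emb_eq (T : List Bool) : (T.flatMap fun b => [true, b]) = code (T.map some) := by
  induction T with
  | nil => rfl
  | cons b T ih => simp [ih]

theorem poly_emb : Poly emb := by
  refine poly_pairBits (Poly.flatMap (F := fun _ b => [true, b]) Poly.id
    (Poly.cons (NPC.Poly.const _) (Poly.cons (Poly.snd Poly.id) (NPC.Poly.const _)))) ?_
  have h1 : UPoly (fun T : List Bool => 2 * Nat.sqrt T.length) :=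
    UPoly.mul (UPoly.const 2) poly_sqrt
  refine (NPC.Poly.map (F := fun _ _ => true) h1 (NPC.Poly.const true)).congr fun T => ?_
  simp

theorem length_emb (T : List Bool) :
    (emb T).length = 4 * T.length + 1 + 2 * Nat.sqrt T.length := by
  unfold emb
  rw [A2.length_pairBits, emb_eq, length_code, List.length_map, List.length_replicate]
  ring

theorem agrees_some {T T' : List Bool} (h : Agrees (T.map some) T') : T' = T := by
  unfold Agrees at h
  rw [List.forall₂_map_left_iff] at h
  induction h with
  | nil => rfl
  | cons h1 _ ih =>
    rcases h1 with h1 | h1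
    · simp at h1
    · rw [Option.some.injEq] at h1
      rw [h1, ih]

theorem agrees_self (T : List Bool) : Agrees (T.map some) T := by
  unfold Agrees
  rw [List.forall₂_map_left_iff]
  exact List.forall₂_same.2 fun b _ => Or.inr rfl

theorem emb_mem (A : Oracle) (T : List Bool) : emb T ∈ PMCSP A ↔ T ∈ LG A := by
  rw [mem_iff, LG_eq, Set.mem_ofPred_eq]
  constructor
  · rintro ⟨T', u, τ, h1, h2, h3⟩
    unfold emb at h1
    obtain ⟨h4, h5⟩ := HRD.pairBits_inj h1
    rw [emb_eq] at h4
    rw [← code_inj h4] at h2
    rw [agrees_some h2, ← h5] at h3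
    exact h3
  · intro h
    exact ⟨T, _, T.map some, by rw [← emb_eq]; rfl, agrees_self T, h⟩

theorem gap_of_pmcsp {A : Oracle} (h : WithAdvice (IsNP A) (PMCSP A)ᶜ) :
    ∃ L, SolvesGap A L ∧ WithAdvice (IsNP A) Lᶜ := by
  obtain ⟨L', a, p, h1, h2, h3⟩ := h
  refine ⟨LG A, solvesGap_LG A, {z | pairBits (emb (unpair z).1) (unpair z).2 ∈ L'},
    fun N => a (4 * N + 1 + 2 * Nat.sqrt N), p.comp (Polynomial.C 6 * Polynomial.X +
      Polynomial.C 1), isNP_preimage h1 (g := fun z => pairBits (emb (unpair z).1) (unpair z).2)
        (poly_pairBits (poly_emb.comp (Poly.fst poly_unpair)) (Poly.snd poly_unpair)),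
    fun N => ?_, fun T => ?_⟩
  · refine (h2 _).trans ?_
    rw [Polynomial.eval_comp]
    apply eval_mono
    have := Nat.sqrt_le_self N
    simp only [Polynomial.eval_add, Polynomial.eval_mul, Polynomial.eval_C, Polynomial.eval_X]
    omega
  · rw [Set.mem_ofPred_eq, unpair_pairBits]
    have h4 := h3 (emb T)
    rw [length_emb] at h4
    simp only
    rw [← h4, Set.mem_compl_iff, Set.mem_compl_iff, emb_mem]

end Pool.Agent.TH707.PM
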